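import Pool.Agent.H29.RT.Targets
import Pool.Agent.H89.Cubic.Div

/-!
# (BXA) the left side over a small set (energy method, MP_347b49_nt)
-/

set_option autoImplicit false

open Complex MeasureTheory Set Filter Topology

namespace Pool.Agent.H85.RTA

open Pool.Agent.H29.RT Pool.Agent.H25.DP Pool.Agent.H25.DL

theorem en_mul (k l : ℕ) (hk : 1 ≤ k) (hl : 1 ≤ l) (t : ℝ) :
    en k t * en l t = en (k * l) t := by
  unfold en
  rw [← Complex.exp_add]
  congr 1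
  have h1 : (k : ℝ) ≠ 0 := by
    have : k ≠ 0 := by omega
    exact_mod_cast this
  have h2 : (l : ℝ) ≠ 0 := by
    have : l ≠ 0 := by omega
    exact_mod_cast this
  rw [Nat.cast_mul, Real.log_mul h1 h2]
  push_cast
  ring

theorem continuous_en (n : ℕ) : Continuous (en n) := by
  unfold en
  fun_prop

theorem norm_en (n : ℕ) (u : ℝ) : ‖en n u‖ = 1 := by
  unfold en
  rw [Complex.norm_exp_ofReal_mul_I]

theorem dyad_sum (f : ℕ → ℂ) (J : ℕ) :
    ∑ i ∈ Finset.range J, ∑ n ∈ Finset.Ico (2 ^ i) (2 ^ (i + 1)), f n =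
      ∑ n ∈ Finset.Ico 1 (2 ^ J), f n := by
  induction J with
  | zero => simp
  | succ J ih =>
    rw [Finset.sum_range_succ, ih]
    exact Finset.sum_Ico_consecutive f Nat.one_le_two_pow
      (Nat.pow_le_pow_right (by norm_num) (by omega))

/-- the mean value theorem for all frequencies up to `X` -/
theorem dyad (h1 : T_MV) (e : ℝ) (he : 0 < e) : ∃ C : ℝ, 0 < C ∧
    ∀ (X : ℕ) (b : ℕ → ℂ) (A : ℝ), 1 ≤ X → 0 ≤ A → e ≤ 1 / 8 →
      (∀ n : ℕ, 1 ≤ n → ‖b n‖ ≤ A * (n : ℝ) ^ (2 * e - 1 / 2)) → ∀ T : ℝ, 1 ≤ T →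
      ∫ t in T..(2 * T), ‖∑ n ∈ Finset.Icc 1 X, b n * en n t‖ ^ 2 ≤
        C * A ^ 2 * (X : ℝ) ^ (6 * e) * (T + X) := by
  obtain ⟨C₀, hC₀, hMV⟩ := h1 1 2 one_pos
  set C₁ : ℝ := 1 / (e * Real.log 2) + 1 with hC₁
  have hlog2 : 0 < Real.log 2 := Real.log_pos (by norm_num)
  have hC₁p : 0 < C₁ := by positivity
  refine ⟨C₁ ^ 2 * C₀, by positivity, ?_⟩
  intro X b A hX hA he' hb T hT
  have hX0 : (0 : ℝ) < X := by exact_mod_cast hX
  have hX1 : (1 : ℝ) ≤ X := by exact_mod_cast hX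
  set J := Nat.log 2 X + 1 with hJ
  have hXJ : X < 2 ^ J := Nat.lt_pow_succ_log_self (by norm_num) X
  have hiX : ∀ i ∈ Finset.range J, 2 ^ i ≤ X := by
    intro i hi
    rw [Finset.mem_range] at hi
    exact (Nat.pow_le_pow_right (by norm_num) (by omega)).trans
      (Nat.pow_log_le_self 2 (by omega))
  have hJC : (J : ℝ) ≤ C₁ * (X : ℝ) ^ e := by
    have h2 : ((Nat.log 2 X : ℕ) : ℝ) * Real.log 2 ≤ Real.log X := by
      have h3 : ((2 ^ Nat.log 2 X : ℕ) : ℝ) ≤ X := by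
        exact_mod_cast Nat.pow_log_le_self 2 (by omega)
      push_cast at h3
      have h4 := Real.log_le_log (by positivity) h3
      rwa [Real.log_pow] at h4
    have h5 : Real.log X ≤ (X : ℝ) ^ e / e := Real.log_le_rpow_div hX0.le he
    have h6 : ((Nat.log 2 X : ℕ) : ℝ) ≤ (X : ℝ) ^ e / (e * Real.log 2) := by
      rw [le_div_iff₀ (by positivity)]
      have h7 : ((Nat.log 2 X : ℕ) : ℝ) * Real.log 2 ≤ (X : ℝ) ^ e / e := h2.trans h5
      rw [le_div_iff₀ he] at h7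
      linarith
    have h8 : 1 ≤ (X : ℝ) ^ e := Real.one_le_rpow hX1 he.le
    rw [hJ, hC₁]
    push_cast
    calc ((Nat.log 2 X : ℕ) : ℝ) + 1 ≤ (X : ℝ) ^ e / (e * Real.log 2) + (X : ℝ) ^ e := by
          linarith
      _ = (1 / (e * Real.log 2) + 1) * (X : ℝ) ^ e := by ring
  set b' : ℕ → ℕ → ℂ := fun i n => if n ∈ Finset.Ico (2 ^ i) (2 ^ (i + 1)) ∧ n ≤ X then b n else 0
    with hb'
  have hsum : ∀ t : ℝ, ∑ n ∈ Finset.Icc 1 X, b n * en n t =
      ∑ i ∈ Finset.range J, ∑ n ∈ Finset.Ico (2 ^ i) (2 * 2 ^ i), b' i n * en n (1 * t) := by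
    intro t
    have h2 : ∀ i ∈ Finset.range J, ∑ n ∈ Finset.Ico (2 ^ i) (2 * 2 ^ i), b' i n * en n (1 * t) =
        ∑ n ∈ Finset.Ico (2 ^ i) (2 ^ (i + 1)), (if n ≤ X then b n * en n t else 0) := by
      intro i _
      rw [pow_succ, mul_comm (2 ^ i) 2]
      refine Finset.sum_congr rfl fun n hn => ?_
      rw [hb']
      simp only
      rw [one_mul]
      have hn' : n ∈ Finset.Ico (2 ^ i) (2 ^ (i + 1)) := by
        rw [pow_succ, mul_comm (2 ^ i) 2]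
        exact hn
      by_cases hnX : n ≤ X
      · rw [if_pos ⟨hn', hnX⟩, if_pos hnX]
      · rw [if_neg (fun h => hnX h.2), if_neg hnX, zero_mul]
    rw [Finset.sum_congr rfl h2, dyad_sum, Finset.sum_ite, Finset.sum_const_zero, add_zero]
    refine Finset.sum_congr ?_ fun _ _ => rfl
    ext n
    simp only [Finset.mem_Icc, Finset.mem_filter, Finset.mem_Ico]
    omega
  have hblock : ∀ i ∈ Finset.range J,
      ∫ t in T..(2 * T), ‖∑ n ∈ Finset.Ico (2 ^ i) (2 * 2 ^ i), b' i n * en n (1 * t)‖ ^ 2 ≤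
        C₀ * A ^ 2 * (X : ℝ) ^ (4 * e) * (T + X) := by
    intro i hi
    have hp : (0 : ℝ) < 2 ^ i := by positivity
    have hbn : ∀ n, ‖b' i n‖ ≤ A * ((2 : ℝ) ^ i) ^ (2 * e - 1 / 2) := by
      intro n
      rw [hb']
      simp only
      split_ifs with hc
      · have hn := Finset.mem_Ico.1 hc.1
        have hn1 : 1 ≤ n := le_trans Nat.one_le_two_pow hn.1
        refine (hb n hn1).trans (mul_le_mul_of_nonneg_left ?_ hA)
        apply Real.rpow_le_rpow_of_nonpos hp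
        · exact_mod_cast hn.1
        · linarith
      · rw [norm_zero]
        positivity
    have h2 := hMV (2 ^ i) (A * ((2 : ℝ) ^ i) ^ (2 * e - 1 / 2)) (b' i) Nat.one_le_two_pow hbn
      T T hT
    rw [← two_mul T] at h2
    refine h2.trans ?_
    push_cast
    have h3 : C₀ * (A * ((2 : ℝ) ^ i) ^ (2 * e - 1 / 2)) ^ 2 * 2 ^ i * (T + 2 ^ i) =
        C₀ * A ^ 2 * ((2 : ℝ) ^ i) ^ (4 * e) * (T + 2 ^ i) := by
      have h4 : ((2 : ℝ) ^ i) ^ (4 * e) =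
          (((2 : ℝ) ^ i) ^ (2 * e - 1 / 2)) ^ 2 * 2 ^ i := by
        have h4' : 4 * e = (2 * e - 1 / 2) * 2 + 1 := by ring
        rw [h4', Real.rpow_add hp, Real.rpow_one, Real.rpow_mul hp.le, Real.rpow_two]
      rw [h4]
      ring
    rw [h3]
    have h5 : ((2 : ℝ) ^ i) ≤ X := by exact_mod_cast hiX i hi
    have h6 : ((2 : ℝ) ^ i) ^ (4 * e) ≤ (X : ℝ) ^ (4 * e) :=
      Real.rpow_le_rpow hp.le h5 (by positivity)
    have h7 : 0 ≤ C₀ * A ^ 2 := by positivity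
    calc C₀ * A ^ 2 * ((2 : ℝ) ^ i) ^ (4 * e) * (T + 2 ^ i)
        ≤ C₀ * A ^ 2 * (X : ℝ) ^ (4 * e) * (T + 2 ^ i) := by
          apply mul_le_mul_of_nonneg_right _ (by positivity)
          exact mul_le_mul_of_nonneg_left h6 h7
      _ ≤ C₀ * A ^ 2 * (X : ℝ) ^ (4 * e) * (T + X) := by
          apply mul_le_mul_of_nonneg_left _ (by positivity)
          linarith
  have hcont : ∀ i : ℕ, Continuous fun t : ℝ =>
      ‖∑ n ∈ Finset.Ico (2 ^ i) (2 * 2 ^ i), b' i n * en n (1 * t)‖ ^ 2 := by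
    intro i
    refine (Continuous.norm ?_).pow 2
    refine continuous_finsetSum _ fun n _ => continuous_const.mul ?_
    exact (continuous_en n).comp (by fun_prop)
  have hcont2 : Continuous fun t : ℝ => ‖∑ n ∈ Finset.Icc 1 X, b n * en n t‖ ^ 2 := by
    refine (Continuous.norm ?_).pow 2
    exact continuous_finsetSum _ fun n _ => continuous_const.mul (continuous_en n)
  have hmono : ∫ t in T..(2 * T), ‖∑ n ∈ Finset.Icc 1 X, b n * en n t‖ ^ 2 ≤
      ∫ t in T..(2 * T), ∑ i ∈ Finset.range J, (J : ℝ) *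
        ‖∑ n ∈ Finset.Ico (2 ^ i) (2 * 2 ^ i), b' i n * en n (1 * t)‖ ^ 2 := by
    apply intervalIntegral.integral_mono_on (by linarith)
    · exact hcont2.intervalIntegrable _ _
    · exact Continuous.intervalIntegrable (continuous_finsetSum _ fun i _ =>
        continuous_const.mul (hcont i)) _ _
    · intro t _
      rw [hsum t, ← Finset.mul_sum]
      calc ‖∑ i ∈ Finset.range J, ∑ n ∈ Finset.Ico (2 ^ i) (2 * 2 ^ i), b' i n * en n (1 * t)‖ ^ 2
          ≤ (∑ i ∈ Finset.range J,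
              ‖∑ n ∈ Finset.Ico (2 ^ i) (2 * 2 ^ i), b' i n * en n (1 * t)‖) ^ 2 := by
            apply pow_le_pow_left₀ (norm_nonneg _)
            exact norm_sum_le _ _
        _ ≤ _ := by
            have := @sq_sum_le_card_mul_sum_sq ℕ ℝ _ _ _ _ (Finset.range J)
              (fun i => ‖∑ n ∈ Finset.Ico (2 ^ i) (2 * 2 ^ i), b' i n * en n (1 * t)‖)
            rwa [Finset.card_range] at this
  refine hmono.trans ?_
  have hint : ∀ i ∈ Finset.range J, IntervalIntegrable (fun t : ℝ => (J : ℝ) *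
      ‖∑ n ∈ Finset.Ico (2 ^ i) (2 * 2 ^ i), b' i n * en n (1 * t)‖ ^ 2) volume T (2 * T) :=
    fun i _ => (Continuous.mul continuous_const (hcont i)).intervalIntegrable _ _
  rw [intervalIntegral.integral_finsetSum hint]
  have hfin : ∑ i ∈ Finset.range J, ∫ t in T..(2 * T), (J : ℝ) *
      ‖∑ n ∈ Finset.Ico (2 ^ i) (2 * 2 ^ i), b' i n * en n (1 * t)‖ ^ 2 ≤
      ∑ _i ∈ Finset.range J, (J : ℝ) * (C₀ * A ^ 2 * (X : ℝ) ^ (4 * e) * (T + X)) := by
    refine Finset.sum_le_sum fun i hi => ?_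
    rw [intervalIntegral.integral_const_mul]
    exact mul_le_mul_of_nonneg_left (hblock i hi) (Nat.cast_nonneg _)
  refine hfin.trans ?_
  rw [Finset.sum_const, Finset.card_range, nsmul_eq_mul]
  have h9 : (J : ℝ) ^ 2 ≤ C₁ ^ 2 * (X : ℝ) ^ (2 * e) := by
    calc (J : ℝ) ^ 2 ≤ (C₁ * (X : ℝ) ^ e) ^ 2 := pow_le_pow_left₀ (Nat.cast_nonneg _) hJC 2
      _ = C₁ ^ 2 * (X : ℝ) ^ (2 * e) := by
          rw [mul_pow, ← Real.rpow_natCast ((X : ℝ) ^ e) 2, ← Real.rpow_mul hX0.le]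
          congr 2
          push_cast
          ring
  have h10 : (X : ℝ) ^ (6 * e) = (X : ℝ) ^ (2 * e) * (X : ℝ) ^ (4 * e) := by
    rw [← Real.rpow_add hX0]
    congr 1
    ring
  rw [h10]
  calc (J : ℝ) * ((J : ℝ) * (C₀ * A ^ 2 * (X : ℝ) ^ (4 * e) * (T + X)))
      = (J : ℝ) ^ 2 * (C₀ * A ^ 2 * (X : ℝ) ^ (4 * e) * (T + X)) := by ring
    _ ≤ (C₁ ^ 2 * (X : ℝ) ^ (2 * e)) * (C₀ * A ^ 2 * (X : ℝ) ^ (4 * e) * (T + X)) := by
        apply mul_le_mul_of_nonneg_right h9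
        positivity
    _ = C₁ ^ 2 * C₀ * A ^ 2 * ((X : ℝ) ^ (2 * e) * (X : ℝ) ^ (4 * e)) * (T + X) := by ring

/-- fourth moment of a Dirichlet polynomial -/
theorem fourth (h1 : T_MV) (e : ℝ) (he : 0 < e) (he' : e ≤ 1 / 8) : ∃ C : ℝ, 0 < C ∧
    ∀ (N : ℕ) (a : ℕ → ℂ) (A : ℝ), 1 ≤ N → 0 ≤ A →
      (∀ n : ℕ, 1 ≤ n → ‖a n‖ ≤ A * (n : ℝ) ^ (e - 1 / 2)) → ∀ T : ℝ, 1 ≤ T →
      ∫ t in T..(2 * T), ‖∑ n ∈ Finset.Icc 1 N, a n * en n t‖ ^ 4 ≤
        C * A ^ 4 * ((N : ℝ) ^ 2) ^ (6 * e) * (T + (N : ℝ) ^ 2) := by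
  obtain ⟨C₀, hC₀, hD⟩ := dyad h1 e he
  obtain ⟨C₁, hC₁, hdiv⟩ := Pool.Agent.H89.Cubic.div_bound e he
  refine ⟨C₀ * C₁ ^ 2, by positivity, ?_⟩
  intro N a A hN hA ha T hT
  set P : Finset (ℕ × ℕ) := Finset.Icc 1 N ×ˢ Finset.Icc 1 N with hP
  set b : ℕ → ℂ := fun n => ∑ z ∈ P.filter (fun z => z.1 * z.2 = n), a z.1 * a z.2 with hb
  have hsq : ∀ t : ℝ, (∑ n ∈ Finset.Icc 1 N, a n * en n t) ^ 2 =
      ∑ n ∈ Finset.Icc 1 (N ^ 2), b n * en n t := by
    intro t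
    rw [pow_two, Finset.sum_mul_sum, ← Finset.sum_product']
    have hmap : ∀ z ∈ P, z.1 * z.2 ∈ Finset.Icc 1 (N ^ 2) := by
      intro z hz
      rw [hP, Finset.mem_product, Finset.mem_Icc, Finset.mem_Icc] at hz
      rw [Finset.mem_Icc]
      refine ⟨Nat.mul_pos hz.1.1 hz.2.1, ?_⟩
      rw [pow_two]
      exact Nat.mul_le_mul hz.1.2 hz.2.2
    rw [← Finset.sum_fiberwise_of_maps_to hmap]
    refine Finset.sum_congr rfl fun n _ => ?_
    rw [hb]
    simp only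
    rw [Finset.sum_mul]
    refine Finset.sum_congr rfl fun z hz => ?_
    rw [Finset.mem_filter, hP, Finset.mem_product, Finset.mem_Icc, Finset.mem_Icc] at hz
    rw [← hz.2, ← en_mul z.1 z.2 hz.1.1.1 hz.1.2.1]
    ring
  have hbn : ∀ n : ℕ, 1 ≤ n → ‖b n‖ ≤ (A ^ 2 * C₁) * (n : ℝ) ^ (2 * e - 1 / 2) := by
    intro n hn
    have hn0 : (0 : ℝ) < n := by exact_mod_cast hn
    have hterm : ∀ z ∈ P.filter (fun z : ℕ × ℕ => z.1 * z.2 = n),
        ‖a z.1 * a z.2‖ ≤ A ^ 2 * (n : ℝ) ^ (e - 1 / 2) := by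
      intro z hz
      rw [Finset.mem_filter, hP, Finset.mem_product, Finset.mem_Icc, Finset.mem_Icc] at hz
      rw [norm_mul]
      calc ‖a z.1‖ * ‖a z.2‖ ≤ (A * (z.1 : ℝ) ^ (e - 1 / 2)) * (A * (z.2 : ℝ) ^ (e - 1 / 2)) :=
            mul_le_mul (ha _ hz.1.1.1) (ha _ hz.1.2.1) (norm_nonneg _) (by positivity)
        _ = A ^ 2 * (((z.1 : ℝ) * (z.2 : ℝ)) ^ (e - 1 / 2)) := by
            rw [Real.mul_rpow (by positivity) (by positivity)]
            ring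
        _ = A ^ 2 * (n : ℝ) ^ (e - 1 / 2) := by
            rw [← hz.2]
            push_cast
            rfl
    have hcard : ((P.filter fun z : ℕ × ℕ => z.1 * z.2 = n).card : ℝ) ≤ (n.divisors.card : ℝ) := by
      have h2 : (P.filter fun z : ℕ × ℕ => z.1 * z.2 = n).card ≤ n.divisors.card := by
        refine Finset.card_le_card_of_injOn (fun z => z.1) ?_ ?_
        · intro z hz
          rw [Finset.mem_coe, Finset.mem_filter] at hz
          rw [Finset.mem_coe, Nat.mem_divisors]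
          exact ⟨⟨z.2, hz.2.symm⟩, by omega⟩
        · intro z hz w hw hzw
          rw [Finset.mem_coe, Finset.mem_filter, hP, Finset.mem_product, Finset.mem_Icc,
            Finset.mem_Icc] at hz hw
          simp only at hzw
          have hz1 := hz.1.1.1
          refine Prod.ext hzw ?_
          have h3 : z.1 * z.2 = z.1 * w.2 := by rw [hz.2, hzw, hw.2]
          exact Nat.eq_of_mul_eq_mul_left hz1 h3
      exact_mod_cast h2
    calc ‖b n‖ ≤ ∑ z ∈ P.filter (fun z : ℕ × ℕ => z.1 * z.2 = n), ‖a z.1 * a z.2‖ :=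
          norm_sum_le _ _
      _ ≤ ∑ _z ∈ P.filter (fun z : ℕ × ℕ => z.1 * z.2 = n), A ^ 2 * (n : ℝ) ^ (e - 1 / 2) :=
          Finset.sum_le_sum hterm
      _ = ((P.filter fun z : ℕ × ℕ => z.1 * z.2 = n).card : ℝ) *
          (A ^ 2 * (n : ℝ) ^ (e - 1 / 2)) := by
          rw [Finset.sum_const, nsmul_eq_mul]
      _ ≤ (C₁ * (n : ℝ) ^ e) * (A ^ 2 * (n : ℝ) ^ (e - 1 / 2)) := by
          apply mul_le_mul_of_nonneg_right (hcard.trans (hdiv n hn))
          positivity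
      _ = (A ^ 2 * C₁) * ((n : ℝ) ^ e * (n : ℝ) ^ (e - 1 / 2)) := by ring
      _ = (A ^ 2 * C₁) * (n : ℝ) ^ (2 * e - 1 / 2) := by
          rw [← Real.rpow_add hn0]
          congr 2
          ring
  have h2 := hD (N ^ 2) b (A ^ 2 * C₁) (Nat.one_le_pow _ _ hN) (by positivity) he' hbn T hT
  have h3 : ∀ t : ℝ, ‖∑ n ∈ Finset.Icc 1 N, a n * en n t‖ ^ 4 =
      ‖∑ n ∈ Finset.Icc 1 (N ^ 2), b n * en n t‖ ^ 2 := by
    intro t
    rw [← hsq t, norm_pow, ← pow_mul]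
  simp only [h3]
  refine h2.trans (le_of_eq ?_)
  push_cast
  ring

/-- the left side as a Dirichlet polynomial -/
theorem norm_AL (hG : T_GRP) (ι : Type) [Fintype ι] (f : ι → Fac) (D : ℝ)
    (hr : ∀ l, (f l).r = 1) (hD : 0 < D) (β T ξ : ℝ) (hT : 1 ≤ T) (N : ℕ)
    (hN : 2 ^ Fintype.card ι * T ^ D < N + 1) (u : ℝ) :
    ‖AL f β D T ξ u‖ = ‖∑ k ∈ Finset.Icc 1 N, (at' f D T k *
      (((((k : ℕ) : ℝ) ^ (-(1 / 2) : ℝ)) : ℝ) : ℂ) *
      (Real.exp (-(β ^ 2 * (Real.log k - ξ) ^ 2 / 4)) : ℂ)) * en k u‖ := by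
  classical
  obtain ⟨-, g2, g3, -⟩ := hG ι f D hr hD
  rw [← Complex.norm_conj]
  congr 1
  unfold AL
  rw [map_sum]
  have hmap : ∀ z ∈ TU f D T, ∏ l, z l ∈ Finset.Icc 1 N := by
    intro z hz
    obtain ⟨h1, h2⟩ := g2 T hT z hz
    rw [Finset.mem_Icc]
    refine ⟨h1, ?_⟩
    have h3 : ((∏ l, z l : ℕ) : ℝ) < ((N + 1 : ℕ) : ℝ) := by
      push_cast at h2 ⊢
      exact lt_of_le_of_lt h2 hN
    have h4 : ∏ l, z l < N + 1 := by exact_mod_cast h3
    omega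
  rw [← Finset.sum_fiberwise_of_maps_to hmap]
  refine Finset.sum_congr rfl fun k hk => ?_
  unfold at'
  rw [Finset.sum_mul, Finset.sum_mul, Finset.sum_mul]
  refine Finset.sum_congr ?_ ?_
  · ext z
    simp only [Finset.mem_filter]
  intro z hz
  rw [Finset.mem_filter] at hz
  obtain ⟨hz1, hz2⟩ := hz
  have hzpos : ∀ l, 1 ≤ z l := by
    intro l
    by_contra h0
    have h1 : z l = 0 := by omega
    have h2 : ∏ l, z l = 0 := Finset.prod_eq_zero (Finset.mem_univ l) h1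
    have h3 := (g2 T hT z hz1).1
    omega
  obtain ⟨h4, h5⟩ := g3 z hzpos
  rw [map_mul, map_mul, Complex.conj_conj, Complex.conj_ofReal, h4, h5, hz2]
  have h6 : (starRingEnd ℂ) (cexp ((u * Real.log (k : ℝ) : ℝ) * I)) = en k u := by
    rw [← Complex.exp_conj]
    unfold en
    congr 1
    rw [map_mul, Complex.conj_ofReal, Complex.conj_I]
    push_cast
    ring
  rw [h6]
  ring

theorem pf_BXA (h : T_GRP) (h1 : Pool.Agent.H25.DP.T_MV) : T_BXA := by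
  intro ι _ f D ρ₀ ε hr hD hD1 hρ hρ1 hρ2 hε
  refine ⟨ε / 4, by positivity, ?_⟩
  intro β hβ
  obtain ⟨-, g2, g3, g4⟩ := h ι f D hr hD
  set e : ℝ := min (ε / 96) (1 / 8) with he
  have he0 : 0 < e := lt_min (by positivity) (by norm_num)
  have he8 : e ≤ 1 / 8 := min_le_right _ _
  have heε : 12 * e ≤ ε / 8 := by
    have : e ≤ ε / 96 := min_le_left _ _
    linarith
  obtain ⟨A, hA, hAk⟩ := g4 e he0
  obtain ⟨C, hC, hF⟩ := fourth h1 e he0 he8
  set q : ℝ := 2 ^ Fintype.card ι with hq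
  have hq1 : 1 ≤ q := one_le_pow₀ (by norm_num)
  have hq0 : 0 < q := by linarith
  set K : ℝ := C * A ^ 4 * (q ^ 2) ^ (6 * e) * (1 + q ^ 2) with hK
  have hK0 : 0 < K := by positivity
  have hlim : Tendsto (fun T : ℝ => (1 + K) * T ^ (-(ε / 8))) atTop (𝓝 0) := by
    have := (tendsto_rpow_neg_atTop (by positivity : 0 < ε / 8)).const_mul (1 + K)
    rwa [mul_zero] at this
  obtain ⟨T₁, hT₁⟩ := (eventually_atTop.1 ((tendsto_order.1 hlim).2 1 one_pos))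
  refine ⟨max 1 T₁, ?_⟩
  intro T hT ξ E hE hEsub hvol
  have hT1 : 1 ≤ T := le_trans (le_max_left _ _) hT
  have hT0 : 0 < T := by linarith
  have hTT := hT₁ T (le_trans (le_max_right _ _) hT)
  set N : ℕ := ⌊q * T ^ D⌋₊ with hN
  have hTD : 1 ≤ T ^ D := Real.one_le_rpow hT1 hD.le
  have hqTD : 1 ≤ q * T ^ D := by nlinarith
  have hN1 : 1 ≤ N := by
    rw [hN]
    exact Nat.le_floor (by exact_mod_cast hqTD)
  have hNle : (N : ℝ) ≤ q * T ^ D := Nat.floor_le (by positivity)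
  have hNlt : q * T ^ D < N + 1 := Nat.lt_floor_add_one _
  have hN0 : (0 : ℝ) < N := by exact_mod_cast hN1
  set a : ℕ → ℂ := fun k => at' f D T k * (((((k : ℕ) : ℝ) ^ (-(1 / 2) : ℝ)) : ℝ) : ℂ) *
      (Real.exp (-(β ^ 2 * (Real.log k - ξ) ^ 2 / 4)) : ℂ) with ha
  have hAL : ∀ u : ℝ, ‖AL f β D T ξ u‖ = ‖∑ k ∈ Finset.Icc 1 N, a k * en k u‖ := by
    intro u
    exact norm_AL h ι f D hr hD β T ξ hT1 N hNlt u
  have hak : ∀ n : ℕ, 1 ≤ n → ‖a n‖ ≤ A * (n : ℝ) ^ (e - 1 / 2) := by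
    intro n hn
    have hn0 : (0 : ℝ) < n := by exact_mod_cast hn
    rw [ha]
    simp only
    rw [norm_mul, norm_mul, Complex.norm_real, Complex.norm_real, Real.norm_of_nonneg
      (by positivity), Real.norm_of_nonneg (Real.exp_pos _).le]
    have h2 : Real.exp (-(β ^ 2 * (Real.log n - ξ) ^ 2 / 4)) ≤ 1 := by
      rw [Real.exp_le_one_iff]
      have : 0 ≤ β ^ 2 * (Real.log n - ξ) ^ 2 / 4 := by positivity
      linarith
    have h3 := (hAk n hn).2 T hT1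
    calc ‖at' f D T n‖ * (n : ℝ) ^ (-(1 / 2) : ℝ) *
          Real.exp (-(β ^ 2 * (Real.log n - ξ) ^ 2 / 4))
        ≤ ‖at' f D T n‖ * (n : ℝ) ^ (-(1 / 2) : ℝ) * 1 :=
          mul_le_mul_of_nonneg_left h2 (by positivity)
      _ ≤ (A * (n : ℝ) ^ e) * (n : ℝ) ^ (-(1 / 2) : ℝ) := by
          rw [mul_one]
          exact mul_le_mul_of_nonneg_right h3 (by positivity)
      _ = A * (n : ℝ) ^ (e - 1 / 2) := by
          rw [mul_assoc, ← Real.rpow_add hn0]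
          rfl
  have h4 := hF N a A hN1 hA.le hak T hT1
  -- the bound for the fourth moment
  have hNsq : (N : ℝ) ^ 2 ≤ q ^ 2 * T ^ (2 * D) := by
    calc (N : ℝ) ^ 2 ≤ (q * T ^ D) ^ 2 := pow_le_pow_left₀ hN0.le hNle 2
      _ = q ^ 2 * T ^ (2 * D) := by
          rw [mul_pow, ← Real.rpow_natCast (T ^ D) 2, ← Real.rpow_mul hT0.le]
          congr 2
          push_cast
          ring
  have hpow : ((N : ℝ) ^ 2) ^ (6 * e) ≤ (q ^ 2) ^ (6 * e) * T ^ (ε / 8) := by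
    calc ((N : ℝ) ^ 2) ^ (6 * e) ≤ (q ^ 2 * T ^ (2 * D)) ^ (6 * e) :=
          Real.rpow_le_rpow (by positivity) hNsq (by positivity)
      _ = (q ^ 2) ^ (6 * e) * T ^ (2 * D * (6 * e)) := by
          rw [Real.mul_rpow (by positivity) (by positivity), ← Real.rpow_mul hT0.le]
      _ ≤ (q ^ 2) ^ (6 * e) * T ^ (ε / 8) := by
          apply mul_le_mul_of_nonneg_left _ (by positivity)
          apply Real.rpow_le_rpow_of_exponent_le hT1
          nlinarith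
  have hmain : T + (N : ℝ) ^ 2 ≤ (1 + q ^ 2) * T ^ (2 - ρ₀) := by
    have h5 : T ≤ T ^ (2 - ρ₀) := by
      calc T = T ^ (1 : ℝ) := (Real.rpow_one T).symm
        _ ≤ T ^ (2 - ρ₀) := Real.rpow_le_rpow_of_exponent_le hT1 (by linarith)
    have h6 : T ^ (2 * D) ≤ T ^ (2 - ρ₀) :=
      Real.rpow_le_rpow_of_exponent_le hT1 (by linarith)
    have h7 : q ^ 2 * T ^ (2 * D) ≤ q ^ 2 * T ^ (2 - ρ₀) :=
      mul_le_mul_of_nonneg_left h6 (by positivity)
    linarith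
  have h4' : ∫ t in T..(2 * T), ‖∑ n ∈ Finset.Icc 1 N, a n * en n t‖ ^ 4 ≤
      K * T ^ (2 - ρ₀ + ε / 8) := by
    refine h4.trans ?_
    calc C * A ^ 4 * ((N : ℝ) ^ 2) ^ (6 * e) * (T + (N : ℝ) ^ 2)
        ≤ C * A ^ 4 * ((q ^ 2) ^ (6 * e) * T ^ (ε / 8)) * ((1 + q ^ 2) * T ^ (2 - ρ₀)) := by
          apply mul_le_mul _ hmain (by positivity) (by positivity)
          exact mul_le_mul_of_nonneg_left hpow (by positivity)
      _ = K * (T ^ (2 - ρ₀) * T ^ (ε / 8)) := by rw [hK]; ring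
      _ = K * T ^ (2 - ρ₀ + ε / 8) := by rw [← Real.rpow_add hT0]
  -- the small set
  set lm : ℝ := T ^ (1 - ρ₀ + ε / 2) with hlm
  have hlm0 : 0 < lm := by positivity
  have hcont : Continuous fun u : ℝ => ‖∑ k ∈ Finset.Icc 1 N, a k * en k u‖ :=
    (continuous_finsetSum _ fun n _ => continuous_const.mul (continuous_en n)).norm
  have hfinE : volume E ≠ ⊤ :=
    ne_top_of_le_ne_top (by simp) (measure_mono hEsub)
  have hI4 : IntegrableOn (fun u : ℝ => ‖∑ k ∈ Finset.Icc 1 N, a k * en k u‖ ^ 4)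
      (Icc T (2 * T)) := (hcont.pow 4).continuousOn.integrableOn_Icc
  have hI2 : IntegrableOn (fun u : ℝ => ‖∑ k ∈ Finset.Icc 1 N, a k * en k u‖ ^ 2)
      (Icc T (2 * T)) := (hcont.pow 2).continuousOn.integrableOn_Icc
  have hIc : IntegrableOn (fun _ : ℝ => lm) E := integrableOn_const hfinE
  have h8 : ∫ u in E, ‖AL f β D T ξ u‖ ^ 2 ≤
      ∫ u in E, (lm + lm⁻¹ * ‖∑ k ∈ Finset.Icc 1 N, a k * en k u‖ ^ 4) := by
    simp only [hAL]
    apply integral_mono (hI2.mono_set hEsub)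
    · exact hIc.add ((hI4.mono_set hEsub).const_mul _)
    intro u
    simp only
    set x : ℝ := ‖∑ k ∈ Finset.Icc 1 N, a k * en k u‖ with hx
    have hx0 : 0 ≤ x := norm_nonneg _
    have h9 : 0 ≤ lm⁻¹ * (lm - x ^ 2) ^ 2 := by positivity
    have h10 : lm⁻¹ * (lm - x ^ 2) ^ 2 = lm - 2 * x ^ 2 + lm⁻¹ * x ^ 4 := by
      field_simp
      ring
    nlinarith [sq_nonneg x]
  have h11 : ∫ u in E, (lm + lm⁻¹ * ‖∑ k ∈ Finset.Icc 1 N, a k * en k u‖ ^ 4) =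
      lm * volume.real E + lm⁻¹ * ∫ u in E, ‖∑ k ∈ Finset.Icc 1 N, a k * en k u‖ ^ 4 := by
    rw [integral_add hIc ((hI4.mono_set hEsub).const_mul _), integral_const_mul]
    congr 1
    rw [setIntegral_const, smul_eq_mul, mul_comm]
  have h12 : ∫ u in E, ‖∑ k ∈ Finset.Icc 1 N, a k * en k u‖ ^ 4 ≤
      ∫ t in T..(2 * T), ‖∑ n ∈ Finset.Icc 1 N, a n * en n t‖ ^ 4 := by
    rw [intervalIntegral.integral_of_le (by linarith), ← integral_Icc_eq_integral_Ioc]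
    apply setIntegral_mono_set hI4
    · exact Filter.Eventually.of_forall fun u => by positivity
    · exact hEsub.eventuallyLE
  have h13 : lm * volume.real E ≤ T ^ (1 - ε / 2) := by
    calc lm * volume.real E ≤ lm * T ^ (ρ₀ - ε) := mul_le_mul_of_nonneg_left hvol hlm0.le
      _ = T ^ (1 - ε / 2) := by
          rw [hlm, ← Real.rpow_add hT0]
          congr 1
          ring
  have h14 : lm⁻¹ * ∫ u in E, ‖∑ k ∈ Finset.Icc 1 N, a k * en k u‖ ^ 4 ≤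
      K * T ^ (1 - 3 * ε / 8) := by
    calc lm⁻¹ * ∫ u in E, ‖∑ k ∈ Finset.Icc 1 N, a k * en k u‖ ^ 4
        ≤ lm⁻¹ * (K * T ^ (2 - ρ₀ + ε / 8)) :=
          mul_le_mul_of_nonneg_left (h12.trans h4') (by positivity)
      _ = K * (T ^ (-(1 - ρ₀ + ε / 2)) * T ^ (2 - ρ₀ + ε / 8)) := by
          rw [hlm, Real.rpow_neg hT0.le]
          ring
      _ = K * T ^ (1 - 3 * ε / 8) := by
          rw [← Real.rpow_add hT0]
          congr 2
          ring
  have h15 : T ^ (1 - ε / 2) ≤ T ^ (1 - 3 * ε / 8) :=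
    Real.rpow_le_rpow_of_exponent_le hT1 (by linarith)
  have h16 : (1 + K) * T ^ (1 - 3 * ε / 8) ≤ T ^ (1 - ε / 4) := by
    calc (1 + K) * T ^ (1 - 3 * ε / 8) = ((1 + K) * T ^ (-(ε / 8))) * T ^ (1 - ε / 4) := by
          rw [mul_assoc, ← Real.rpow_add hT0]
          congr 2
          ring
      _ ≤ 1 * T ^ (1 - ε / 4) := mul_le_mul_of_nonneg_right hTT.le (by positivity)
      _ = T ^ (1 - ε / 4) := one_mul _
  calc ∫ u in E, ‖AL f β D T ξ u‖ ^ 2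
      ≤ lm * volume.real E + lm⁻¹ * ∫ u in E, ‖∑ k ∈ Finset.Icc 1 N, a k * en k u‖ ^ 4 :=
        h8.trans h11.le
    _ ≤ T ^ (1 - 3 * ε / 8) + K * T ^ (1 - 3 * ε / 8) := by linarith
    _ = (1 + K) * T ^ (1 - 3 * ε / 8) := by ring
    _ ≤ T ^ (1 - ε / 4) := h16

end Pool.Agent.H85.RTA
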